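import Pool.Agent.Y958.SP.Stm

set_option autoImplicit false

/-! Project SP (helper958): second moments of the model and of the difference. -/

namespace Pool.Agent.Y889.SP
open Finset
open Pool.Agent.H807R2.Dav
open Pool.Agent.TH212.DV
open Pool.Agent.TH212.PS

/-- the weights `ww` in terms of the number of divisors -/
lemma ww_tau (t Y D q n : ℕ) (hq : 1 ≤ q) : ww (WE Y t) Y D q n ≤
    ((t : ℝ) + 2) * (1 + Real.log D) ^ (t + 1) * ((q.divisors.card : ℝ) ^ (t + 1) / q) := by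
  have hq0 : (0 : ℝ) < q := by exact_mod_cast hq
  have hlD0 : 0 ≤ Real.log D := Real.log_natCast_nonneg D
  refine (ww_le (WE Y t) (WE_nonneg Y t) Y D q n).trans ?_
  refine (RR_le (WE Y t) (t + 2) t D q (WE_le Y t) (by positivity) hq).trans ?_
  have h1 : (dk (t + 1) q : ℝ) ≤ (q.divisors.card : ℝ) ^ (t + 1) := by
    exact_mod_cast dk_le_tau (t + 1) q
  calc ((t : ℝ) + 2) * ((dk (t + 1) q : ℝ) / q) * (1 + Real.log D) ^ (t + 1)
      ≤ ((t : ℝ) + 2) * ((q.divisors.card : ℝ) ^ (t + 1) / q) * (1 + Real.log D) ^ (t + 1) := by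
        apply mul_le_mul_of_nonneg_right _ (by positivity)
        apply mul_le_mul_of_nonneg_left _ (by positivity)
        exact div_le_div_of_nonneg_right h1 hq0.le
    _ = _ := by ring

/-- the diagonal terms -/
lemma diag_le (t Y D z A : ℕ) :
    ∑ q ∈ Icc 1 z, (cz q 0 : ℝ) * ∑ n ∈ Icc 1 A, ww (WE Y t) Y D q n * ww (WE Y t) Y D q n ≤
      A * (((t : ℝ) + 2) ^ 2 * (1 + Real.log D) ^ (2 * t + 2) * (1 + Real.log z) ^ (2 ^ (2 * t + 2))) := by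
  have hlD0 : 0 ≤ Real.log D := Real.log_natCast_nonneg D
  have h1 : ∀ q ∈ Icc 1 z, (cz q 0 : ℝ) * ∑ n ∈ Icc 1 A, ww (WE Y t) Y D q n * ww (WE Y t) Y D q n ≤
      (A * (((t : ℝ) + 2) ^ 2 * (1 + Real.log D) ^ (2 * t + 2))) * ((q.divisors.card : ℝ) ^ (2 * t + 2) / q) := by
    intro q hq
    rw [mem_Icc] at hq
    have hq0 : (0 : ℝ) < q := by exact_mod_cast hq.1
    have h2 : (cz q 0 : ℝ) ≤ q := (le_abs_self _).trans (abs_cz_le q hq.1 0)
    obtain ⟨W, hW⟩ : ∃ W : ℝ, W = ((t : ℝ) + 2) * (1 + Real.log D) ^ (t + 1) *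
      ((q.divisors.card : ℝ) ^ (t + 1) / q) := ⟨_, rfl⟩
    have hW0 : 0 ≤ W := by rw [hW]; positivity
    have h3 : ∑ n ∈ Icc 1 A, ww (WE Y t) Y D q n * ww (WE Y t) Y D q n ≤ A * (W * W) := by
      have h4 : ∀ n ∈ Icc 1 A, ww (WE Y t) Y D q n * ww (WE Y t) Y D q n ≤ W * W := by
        intro n _
        have h5 := ww_tau t Y D q n hq.1
        rw [← hW] at h5
        exact mul_le_mul h5 h5 (ww_nonneg _ (WE_nonneg Y t) _ _ _ _) hW0
      refine (sum_le_sum h4).trans ?_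
      rw [sum_const, nsmul_eq_mul, Nat.card_Icc, Nat.add_sub_cancel]
    have h6 : 0 ≤ ∑ n ∈ Icc 1 A, ww (WE Y t) Y D q n * ww (WE Y t) Y D q n :=
      sum_nonneg fun n _ => mul_nonneg (ww_nonneg _ (WE_nonneg Y t) _ _ _ _)
        (ww_nonneg _ (WE_nonneg Y t) _ _ _ _)
    calc (cz q 0 : ℝ) * ∑ n ∈ Icc 1 A, ww (WE Y t) Y D q n * ww (WE Y t) Y D q n
        ≤ q * (A * (W * W)) := by
          refine (mul_le_mul_of_nonneg_right h2 h6).trans (mul_le_mul_of_nonneg_left h3 hq0.le)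
      _ = _ := by
          rw [hW]
          have e1 : ((q.divisors.card : ℝ)) ^ (2 * t + 2) = (q.divisors.card : ℝ) ^ (t + 1) * (q.divisors.card : ℝ) ^ (t + 1) := by
            rw [← pow_add]; congr 1; ring
          have e2 : (1 + Real.log D) ^ (2 * t + 2) = (1 + Real.log D) ^ (t + 1) * (1 + Real.log D) ^ (t + 1) := by
            rw [← pow_add]; congr 1; ring
          rw [e1, e2]
          field_simp
  refine (sum_le_sum h1).trans ?_
  rw [← mul_sum]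
  have h2 := Pool.Agent.TH212.PL.tau_pow_div (2 * t + 2) z
  calc _ ≤ (A * (((t : ℝ) + 2) ^ 2 * (1 + Real.log D) ^ (2 * t + 2))) * (1 + Real.log z) ^ (2 ^ (2 * t + 2)) :=
        mul_le_mul_of_nonneg_left h2 (by positivity)
    _ = _ := by ring

/-- second moment of the sums over divisors -/
lemma FY_sq (t Y D A : ℕ) : ∑ n ∈ Icc 1 A, FY (WE Y t) Y D n ^ 2 ≤
    ((t : ℝ) + 2) ^ 2 * (A * (1 + Real.log A) ^ (2 ^ (2 * t + 4))) := by
  have f1 : ∀ n ∈ Icc 1 A, FY (WE Y t) Y D n ^ 2 ≤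
      ((t : ℝ) + 2) ^ 2 * (A * ((n.divisors.card : ℝ) ^ (2 * t + 4) / n)) := by
    intro n hn
    rw [mem_Icc] at hn
    have hn0 : (0 : ℝ) < n := by exact_mod_cast hn.1
    have g1 : FY (WE Y t) Y D n ≤ (t + 2) * dk (t + 2) n := FY_le Y t D n hn.1
    have g2 : (dk (t + 2) n : ℝ) ≤ (n.divisors.card : ℝ) ^ (t + 2) := by exact_mod_cast dk_le_tau (t + 2) n
    have g3 : 0 ≤ FY (WE Y t) Y D n := FY_nonneg _ (WE_nonneg Y t) _ _ _
    have g4 : FY (WE Y t) Y D n ≤ (t + 2) * (n.divisors.card : ℝ) ^ (t + 2) := g1.trans (mul_le_mul_of_nonneg_left g2 (by positivity))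
    calc FY (WE Y t) Y D n ^ 2 ≤ ((t + 2) * (n.divisors.card : ℝ) ^ (t + 2)) ^ 2 := pow_le_pow_left₀ g3 g4 2
      _ = ((t : ℝ) + 2) ^ 2 * (n.divisors.card : ℝ) ^ (2 * t + 4) := by rw [mul_pow, ← pow_mul]; ring
      _ ≤ _ := by
          apply mul_le_mul_of_nonneg_left _ (by positivity)
          rw [mul_div_assoc', le_div_iff₀ hn0, mul_comm]
          exact mul_le_mul_of_nonneg_right (by exact_mod_cast hn.2) (by positivity)
  refine (sum_le_sum f1).trans ?_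
  rw [← mul_sum, ← mul_sum]
  apply mul_le_mul_of_nonneg_left _ (by positivity)
  exact mul_le_mul_of_nonneg_left (Pool.Agent.TH212.PL.tau_pow_div (2 * t + 4) A) (by positivity)

theorem m2 : Pool.Agent.Y958.SP.M2 := by
  intro t κ hκ0 hκ hκ2
  obtain ⟨n0, h0⟩ := par_bounds t κ hκ0 hκ
  obtain ⟨n1, h1⟩ := pt_ww t (1 / 20) (by norm_num)
  obtain ⟨n2, h2⟩ := ev_pow 0 128 (1 / 2) (by norm_num)
  obtain ⟨m, hm⟩ : ∃ m : ℕ, m = 2 * t + 2 + 2 ^ (2 * t + 2) := ⟨_, rfl⟩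
  obtain ⟨m1, hm1⟩ : ∃ m1 : ℕ, m1 = 2 ^ (2 * t + 4) := ⟨_, rfl⟩
  obtain ⟨c, hc⟩ : ∃ c : ℝ, c = 2 * ((t : ℝ) + 2) ^ 2 * 3 ^ m := ⟨_, rfl⟩
  obtain ⟨c1, hc1⟩ : ∃ c1 : ℝ, c1 = 4 * ((t : ℝ) + 2) ^ 2 * 3 ^ m1 := ⟨_, rfl⟩
  have hc0 : 0 ≤ c := by rw [hc]; positivity
  have hc10 : 0 ≤ c1 := by rw [hc1]; positivity
  obtain ⟨n3, h3⟩ := ev_log (2 * (1 + c) + c1 + 1)
  refine ⟨m + m1 + 1, n0 + n1 + n2 + n3 + 2, fun N hN Y z hp => ?_⟩
  obtain ⟨hY1, hY2, hD, hz1, hz2, hz3, hzD, hDN⟩ := h0 N (by omega) Y z hp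
  have a1 := h1 N (by omega)
  have a2 := h2 N (by omega)
  have a3 := h3 N (by omega)
  rw [pow_zero, mul_one] at a2
  obtain ⟨D, hDd⟩ : ∃ D, D = 2 * N / Y := ⟨_, rfl⟩
  rw [← hDd] at hzD hDN ⊢
  obtain ⟨L, hL⟩ : ∃ L, L = Real.log (N : ℝ) := ⟨_, rfl⟩
  rw [← hL] at a3 ⊢
  have hL1 : 1 ≤ L := by linarith
  have hL0 : 0 < L := by linarith
  have hN1 : 1 ≤ N := by omega
  have hN0 : (0 : ℝ) < N := by exact_mod_cast hN1
  have hNr : (1 : ℝ) ≤ N := by exact_mod_cast hN1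
  have hlog : ∀ k : ℕ, k ≤ 2 * N → 1 + Real.log k ≤ 3 * L := by
    intro k hk
    have : Real.log k ≤ 2 * L := by
      rcases Nat.eq_zero_or_pos k with h | h
      · rw [h, Nat.cast_zero, Real.log_zero]; linarith
      · have h4 : (k : ℝ) ≤ (N : ℝ) ^ 2 := by
          have : (k : ℝ) ≤ 2 * N := by exact_mod_cast hk
          have h4 : (2 : ℝ) ≤ N := by exact_mod_cast (by omega : 2 ≤ N)
          nlinarith
        have h5 := Real.log_le_log (by exact_mod_cast h : (0 : ℝ) < k) h4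
        rw [Real.log_pow, ← hL] at h5
        exact_mod_cast h5
    linarith
  have hlog0 : ∀ k : ℕ, 0 ≤ 1 + Real.log k := fun k => by
    have := Real.log_natCast_nonneg k
    linarith
  -- the second moment of the model
  have hA : ∑ n ∈ Icc 1 (2 * N), MY (WE Y t) Y D z n ^ 2 ≤ (1 + c) * (N * L ^ m) := by
    have g1 := corr_Y (WE Y t) (WE_nonneg Y t) Y D z (2 * N) hz1 0 ((N : ℝ) ^ (1 / 20 : ℝ)) (by positivity)
      (fun q hq n => by
        rw [mem_Icc] at hq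
        refine (a1 Y D q n hDN hq.1 (by omega)).trans ?_
        have hq1 : (1 : ℝ) ≤ q := by exact_mod_cast hq.1
        exact div_le_self (by positivity) hq1)
    have e0 : ∀ n : ℕ, ((n : ℤ) + 0).toNat = n := fun n => by rw [add_zero, Int.toNat_natCast]
    simp only [e0] at g1
    have g2 := diag_le t Y D z (2 * N)
    have g3 : 2 * (z : ℝ) ^ 6 * ((N : ℝ) ^ (1 / 20 : ℝ)) ^ 2 ≤ N := by
      have k1 : (z : ℝ) ^ 6 ≤ 64 * (N : ℝ) ^ (3 / 10 : ℝ) := by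
        calc (z : ℝ) ^ 6 ≤ (2 * (N : ℝ) ^ κ) ^ 6 := pow_le_pow_left₀ (Nat.cast_nonneg _) hz3 6
          _ = 64 * (N : ℝ) ^ (κ * 6) := by
              rw [mul_pow, Real.rpow_mul hN0.le]
              norm_num
          _ ≤ 64 * (N : ℝ) ^ (3 / 10 : ℝ) := by
              apply mul_le_mul_of_nonneg_left _ (by norm_num)
              exact Real.rpow_le_rpow_of_exponent_le hNr (by linarith)
      have k2 : ((N : ℝ) ^ (1 / 20 : ℝ)) ^ 2 = (N : ℝ) ^ (1 / 10 : ℝ) := by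
        rw [← Real.rpow_natCast, ← Real.rpow_mul hN0.le]
        norm_num
      rw [k2]
      calc 2 * (z : ℝ) ^ 6 * (N : ℝ) ^ (1 / 10 : ℝ) ≤ 2 * (64 * (N : ℝ) ^ (3 / 10 : ℝ)) * (N : ℝ) ^ (1 / 10 : ℝ) := by
            apply mul_le_mul_of_nonneg_right _ (by positivity)
            linarith
        _ = 128 * (N : ℝ) ^ (3 / 10 + 1 / 10 : ℝ) := by rw [Real.rpow_add hN0]; ring
        _ ≤ (N : ℝ) ^ (1 / 2 : ℝ) * (N : ℝ) ^ (3 / 10 + 1 / 10 : ℝ) :=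
            mul_le_mul_of_nonneg_right a2 (by positivity)
        _ = (N : ℝ) ^ (1 / 2 + (3 / 10 + 1 / 10) : ℝ) := by rw [← Real.rpow_add hN0]
        _ ≤ (N : ℝ) ^ (1 : ℝ) := Real.rpow_le_rpow_of_exponent_le hNr (by norm_num)
        _ = N := Real.rpow_one _
    have g4 : ((2 * N : ℕ) : ℝ) * (((t : ℝ) + 2) ^ 2 * (1 + Real.log D) ^ (2 * t + 2) * (1 + Real.log z) ^ (2 ^ (2 * t + 2))) ≤
        c * (N * L ^ m) := by
      have k1 : (1 + Real.log D) ^ (2 * t + 2) ≤ (3 * L) ^ (2 * t + 2) := pow_le_pow_left₀ (hlog0 D) (hlog D hDN) _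
      have k2 : (1 + Real.log z) ^ (2 ^ (2 * t + 2)) ≤ (3 * L) ^ (2 ^ (2 * t + 2)) :=
        pow_le_pow_left₀ (hlog0 z) (hlog z (by omega)) _
      have k3 : (1 + Real.log D) ^ (2 * t + 2) * (1 + Real.log z) ^ (2 ^ (2 * t + 2)) ≤ 3 ^ m * L ^ m := by
        rw [← mul_pow, hm, pow_add (3 * L) (2 * t + 2) (2 ^ (2 * t + 2))]
        exact mul_le_mul k1 k2 (pow_nonneg (hlog0 z) _) (by positivity)
      rw [hc]
      push_cast
      calc 2 * (N : ℝ) * (((t : ℝ) + 2) ^ 2 * (1 + Real.log D) ^ (2 * t + 2) * (1 + Real.log z) ^ (2 ^ (2 * t + 2)))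
          = 2 * (N : ℝ) * ((t : ℝ) + 2) ^ 2 * ((1 + Real.log D) ^ (2 * t + 2) * (1 + Real.log z) ^ (2 ^ (2 * t + 2))) := by ring
        _ ≤ 2 * (N : ℝ) * ((t : ℝ) + 2) ^ 2 * (3 ^ m * L ^ m) := mul_le_mul_of_nonneg_left k3 (by positivity)
        _ = _ := by ring
    have g5 : ∑ n ∈ Icc 1 (2 * N), MY (WE Y t) Y D z n ^ 2 ≤ c * (N * L ^ m) + N := by
      have k1 := le_abs_self (∑ n ∈ Icc 1 (2 * N), MY (WE Y t) Y D z n * MY (WE Y t) Y D z n -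
        ∑ q ∈ Icc 1 z, (cz q 0 : ℝ) * ∑ n ∈ Icc 1 (2 * N), ww (WE Y t) Y D q n * ww (WE Y t) Y D q n)
      have k2 : ∑ n ∈ Icc 1 (2 * N), MY (WE Y t) Y D z n ^ 2 = ∑ n ∈ Icc 1 (2 * N), MY (WE Y t) Y D z n * MY (WE Y t) Y D z n :=
        sum_congr rfl fun n _ => pow_two _
      rw [k2]
      linarith
    have g6 : (N : ℝ) ≤ N * L ^ m := le_mul_of_one_le_right hN0.le (one_le_pow₀ hL1)
    linarith
  have hpw : L ^ m ≤ L ^ (m + m1) := pow_le_pow_right₀ hL1 (by omega)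
  have hpw1 : L ^ m1 ≤ L ^ (m + m1) := pow_le_pow_right₀ hL1 (by omega)
  have hLp : 0 < L ^ (m + m1) := by positivity
  constructor
  · refine hA.trans ?_
    calc (1 + c) * (N * L ^ m) ≤ L * (N * L ^ (m + m1)) := by
          apply mul_le_mul (by linarith) _ (by positivity) hL0.le
          exact mul_le_mul_of_nonneg_left hpw hN0.le
      _ = _ := by ring
  · have hB := FY_sq t Y D (2 * N)
    have hB2 : ((t : ℝ) + 2) ^ 2 * (((2 * N : ℕ) : ℝ) * (1 + Real.log ((2 * N : ℕ) : ℝ)) ^ (2 ^ (2 * t + 4))) ≤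
        c1 / 2 * (N * L ^ m1) := by
      have k1 : (1 + Real.log ((2 * N : ℕ) : ℝ)) ^ m1 ≤ 3 ^ m1 * L ^ m1 := by
        rw [← mul_pow]
        exact pow_le_pow_left₀ (hlog0 _) (hlog _ le_rfl) _
      rw [← hm1, hc1]
      calc ((t : ℝ) + 2) ^ 2 * (((2 * N : ℕ) : ℝ) * (1 + Real.log ((2 * N : ℕ) : ℝ)) ^ m1)
          ≤ ((t : ℝ) + 2) ^ 2 * (((2 * N : ℕ) : ℝ) * (3 ^ m1 * L ^ m1)) := by
            apply mul_le_mul_of_nonneg_left _ (by positivity)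
            exact mul_le_mul_of_nonneg_left k1 (by positivity)
        _ = _ := by push_cast; ring
    have hC : ∑ n ∈ Icc 1 (2 * N), (FY (WE Y t) Y D n - MY (WE Y t) Y D z n) ^ 2 ≤
        2 * ∑ n ∈ Icc 1 (2 * N), FY (WE Y t) Y D n ^ 2 + 2 * ∑ n ∈ Icc 1 (2 * N), MY (WE Y t) Y D z n ^ 2 := by
      rw [mul_sum, mul_sum, ← sum_add_distrib]
      apply sum_le_sum
      intro n _
      nlinarith [sq_nonneg (FY (WE Y t) Y D n + MY (WE Y t) Y D z n)]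
    have k1 : (N : ℝ) * L ^ m ≤ N * L ^ (m + m1) := mul_le_mul_of_nonneg_left hpw hN0.le
    have k2 : (N : ℝ) * L ^ m1 ≤ N * L ^ (m + m1) := mul_le_mul_of_nonneg_left hpw1 hN0.le
    have k3 : (1 + c) * (N * L ^ m) ≤ (1 + c) * (N * L ^ (m + m1)) := mul_le_mul_of_nonneg_left k1 (by linarith)
    have k4 : c1 / 2 * (N * L ^ m1) ≤ c1 / 2 * (N * L ^ (m + m1)) := mul_le_mul_of_nonneg_left k2 (by linarith)
    have k5 : (c1 + 2 * (1 + c)) * (N * L ^ (m + m1)) ≤ L * (N * L ^ (m + m1)) :=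
      mul_le_mul_of_nonneg_right (by linarith) (by positivity)
    calc _ ≤ 2 * (c1 / 2 * (N * L ^ (m + m1))) + 2 * ((1 + c) * (N * L ^ (m + m1))) := by linarith
      _ = (c1 + 2 * (1 + c)) * (N * L ^ (m + m1)) := by ring
      _ ≤ L * (N * L ^ (m + m1)) := k5
      _ = _ := by ring

end Pool.Agent.Y889.SP
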